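import Pool.Agent.Helper60.GM.Defs

/-!
# Project GM, block C2: push forward to the shears and the values of `T y²`
-/

open MeasureTheory Real Set Filter Topology

set_option autoImplicit false

namespace Pool.Agent.Helper60.GM

open Pool.Agent.Helper60.LT (co)
open Pool.Agent.Helper60.RT (Pr sp)

/-! ### the number of frames with a given shear -/

/-- the second vector is close to `x` times the first -/
private lemma near93 {F : Fam} {B₀ β : ℝ} (hF : F.Ok B₀) (hβ : 1 ≤ β) {U s x : ℝ} {n p : ℤ × ℤ} (hU : 1 ≤ U) (hn : 0 < n.1) (hn1 : U ≤ β * n.1) (hn2 : (n.1 : ℝ) ≤ β * U)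
    (hsp : |sp n| ≤ 3) (hdet : n.1 * p.2 - n.2 * p.1 = 1) (hs : s ∈ Icc (-1 : ℝ) 2) (hx : (p.1 : ℝ) / n.1 + F.x s (sp n) / (n.1 : ℝ) ^ 2 = x) :
    |(n.1 : ℝ)| ≤ 4 * B₀ ^ 2 * β * U ∧ |(n.2 : ℝ)| ≤ 4 * B₀ ^ 2 * β * U ∧ |(p.1 : ℝ) - x * n.1| ≤ 4 * B₀ ^ 2 * β / U ∧ |(p.2 : ℝ) - x * n.2| ≤ 4 * B₀ ^ 2 * β / U := by
  have hB0 : (1 : ℝ) ≤ B₀ := hF.B1
  have hB00 : (0 : ℝ) < B₀ := by linarith
  have hB2 : (1 : ℝ) ≤ B₀ ^ 2 := by nlinarith
  have hβ0 : (0 : ℝ) < β := by linarith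
  have hU0 : 0 < U := by linarith
  have hnR : (0 : ℝ) < n.1 := by exact_mod_cast hn
  have ht : |sp n| ≤ 12 := by linarith
  have hp0 : 0 < F.p s (sp n) := by
    have := hF.p_lo s hs _ ht
    by_contra h
    push Not at h
    nlinarith
  have hq3 : |F.q3 s (sp n)| ≤ B₀ := (hF.bd s hs _ ht).2.2.2.1
  have hxx : |F.x s (sp n)| ≤ B₀ ^ 2 := by
    unfold Fam.x
    rw [abs_div, abs_neg, abs_of_pos (by positivity : 0 < 3 * F.p s (sp n)), div_le_iff₀ (by positivity)]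
    have h1 := hF.p_lo s hs _ ht
    calc |F.q3 s (sp n)| ≤ B₀ * 1 := by linarith
      _ ≤ B₀ * (B₀ * F.p s (sp n)) := by gcongr
      _ ≤ B₀ ^ 2 * (3 * F.p s (sp n)) := by
          have : 0 ≤ B₀ ^ 2 * F.p s (sp n) := by positivity
          nlinarith
  have h1 : (p.1 : ℝ) - x * n.1 = -F.x s (sp n) / n.1 := by
    rw [← hx]; field_simp; ring
  have hdet' : (n.1 : ℝ) * p.2 - n.2 * p.1 = 1 := by exact_mod_cast hdet
  have h2 : (p.2 : ℝ) - x * n.2 = 1 / n.1 + sp n * ((p.1 : ℝ) - x * n.1) := by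
    unfold sp
    have : (p.2 : ℝ) = (1 + n.2 * p.1) / n.1 := by rw [eq_div_iff hnR.ne']; linarith
    rw [this]; field_simp; ring
  have hinv : 1 / (n.1 : ℝ) ≤ β / U := by
    rw [div_le_div_iff₀ hnR hU0]; linarith
  have h3 : |(p.1 : ℝ) - x * n.1| ≤ B₀ ^ 2 * β / U := by
    rw [h1, abs_div, abs_neg, abs_of_pos hnR]
    calc |F.x s (sp n)| / (n.1 : ℝ) = |F.x s (sp n)| * (1 / n.1) := by ring
      _ ≤ B₀ ^ 2 * (β / U) := by gcongr
      _ = _ := by ring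
  refine ⟨?_, ?_, ?_, ?_⟩
  · rw [abs_of_pos hnR]
    calc (n.1 : ℝ) ≤ 1 * (β * U) := by linarith
      _ ≤ (4 * B₀ ^ 2) * (β * U) := by gcongr; linarith
      _ = _ := by ring
  · have : (n.2 : ℝ) = sp n * n.1 := by unfold sp; field_simp
    rw [this, abs_mul, abs_of_pos hnR]
    calc |sp n| * (n.1 : ℝ) ≤ 3 * (β * U) := by gcongr
      _ ≤ (4 * B₀ ^ 2) * (β * U) := by gcongr; linarith
      _ = _ := by ring
  · calc |(p.1 : ℝ) - x * n.1| ≤ B₀ ^ 2 * β / U := h3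
      _ ≤ 4 * B₀ ^ 2 * β / U := by
          gcongr
          nlinarith [sq_nonneg B₀]
  · rw [h2]
    calc |1 / (n.1 : ℝ) + sp n * ((p.1 : ℝ) - x * n.1)| ≤ |1 / (n.1 : ℝ)| + |sp n * ((p.1 : ℝ) - x * n.1)| := abs_add_le _ _
      _ = 1 / (n.1 : ℝ) + |sp n| * |(p.1 : ℝ) - x * n.1| := by rw [abs_mul, abs_of_pos (by positivity : 0 < 1 / (n.1 : ℝ))]
      _ ≤ β / U + 3 * (B₀ ^ 2 * β / U) := by gcongr
      _ = (1 + 3 * B₀ ^ 2) * β / U := by ring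
      _ ≤ (4 * B₀ ^ 2) * β / U := by gcongr; linarith

/-- a box of integer quadruples -/
private noncomputable def bx93 (k : ℤ) : Finset ((ℤ × ℤ) × (ℤ × ℤ)) := (Finset.Icc (-k) k ×ˢ Finset.Icc (-k) k) ×ˢ (Finset.Icc (-k) k ×ˢ Finset.Icc (-k) k)

private lemma card93 {C U x : ℝ} (hC : 1 ≤ C) (hU : 1 ≤ U) (Z : Finset ((ℤ × ℤ) × (ℤ × ℤ)))
    (hZ : ∀ z ∈ Z, z.1.1 * z.2.2 - z.1.2 * z.2.1 = 1 ∧ |(z.1.1 : ℝ)| ≤ C * U ∧ |(z.1.2 : ℝ)| ≤ C * U ∧ |(z.2.1 : ℝ) - x * z.1.1| ≤ C / U ∧ |(z.2.2 : ℝ) - x * z.1.2| ≤ C / U) :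
    Z.card ≤ (bx93 ⌊2 * C ^ 2⌋).card := by
  rcases Z.eq_empty_or_nonempty with h | ⟨w, hw⟩
  · simp [h]
  have hU0 : 0 < U := by linarith
  have hC0 : 0 < C := by linarith
  obtain ⟨dw, w1, w2, w3, w4⟩ := hZ w hw
  refine Finset.card_le_card_of_injOn
    (fun z => ((w.1.1 * z.2.1 - w.2.1 * z.1.1, w.1.1 * z.2.2 - w.2.1 * z.1.2), (w.1.2 * z.2.1 - w.2.2 * z.1.1, w.1.2 * z.2.2 - w.2.2 * z.1.2))) ?_ ?_
  · intro z hz
    obtain ⟨dz, z1, z2, z3, z4⟩ := hZ z hz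
    have key : ∀ (n n' p p' : ℤ), |(n : ℝ)| ≤ C * U → |(n' : ℝ) - x * n| ≤ C / U → |(p : ℝ)| ≤ C * U → |(p' : ℝ) - x * p| ≤ C / U →
        n * p' - n' * p ∈ Finset.Icc (-⌊2 * C ^ 2⌋) ⌊2 * C ^ 2⌋ := by
      intro n n' p p' h1 h2 h3 h4
      have h5 : |((n * p' - n' * p : ℤ) : ℝ)| ≤ 2 * C ^ 2 := by
        have e1 : ((n * p' - n' * p : ℤ) : ℝ) = n * ((p' : ℝ) - x * p) - ((n' : ℝ) - x * n) * p := by push_cast; ring
        rw [e1]
        calc |(n : ℝ) * ((p' : ℝ) - x * p) - ((n' : ℝ) - x * n) * p| ≤ |(n : ℝ)| * |(p' : ℝ) - x * p| + |(n' : ℝ) - x * n| * |(p : ℝ)| := by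
              rw [← abs_mul, ← abs_mul]; exact abs_sub _ _
          _ ≤ C * U * (C / U) + C / U * (C * U) := by gcongr
          _ = 2 * C ^ 2 := by field_simp; ring
      obtain ⟨h6, h7⟩ := abs_le.1 h5
      rw [Finset.mem_Icc]
      constructor
      · have : -(n * p' - n' * p) ≤ ⌊2 * C ^ 2⌋ := Int.le_floor.2 (by push_cast at h6 ⊢; linarith)
        linarith
      · exact Int.le_floor.2 h7
    simp only [bx93, Finset.coe_product, Set.mem_prod, Finset.mem_coe]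
    exact ⟨⟨key _ _ _ _ w1 w3 z1 z3, key _ _ _ _ w1 w3 z2 z4⟩, key _ _ _ _ w2 w4 z1 z3, key _ _ _ _ w2 w4 z2 z4⟩
  · intro z hz z' hz' hzz
    simp only [Prod.mk.injEq] at hzz
    obtain ⟨⟨h1, h2⟩, h3, h4⟩ := hzz
    have e1 : z.1.1 = z'.1.1 := by
      have a1 : z.1.1 * (w.1.1 * w.2.2 - w.1.2 * w.2.1) = w.1.2 * (w.1.1 * z.2.1 - w.2.1 * z.1.1) - w.1.1 * (w.1.2 * z.2.1 - w.2.2 * z.1.1) := by ring
      have a2 : z'.1.1 * (w.1.1 * w.2.2 - w.1.2 * w.2.1) = w.1.2 * (w.1.1 * z'.2.1 - w.2.1 * z'.1.1) - w.1.1 * (w.1.2 * z'.2.1 - w.2.2 * z'.1.1) := by ring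
      rw [dw, mul_one] at a1 a2
      rw [a1, a2, h1, h3]
    have e2 : z.1.2 = z'.1.2 := by
      have a1 : z.1.2 * (w.1.1 * w.2.2 - w.1.2 * w.2.1) = w.1.2 * (w.1.1 * z.2.2 - w.2.1 * z.1.2) - w.1.1 * (w.1.2 * z.2.2 - w.2.2 * z.1.2) := by ring
      have a2 : z'.1.2 * (w.1.1 * w.2.2 - w.1.2 * w.2.1) = w.1.2 * (w.1.1 * z'.2.2 - w.2.1 * z'.1.2) - w.1.1 * (w.1.2 * z'.2.2 - w.2.2 * z'.1.2) := by ring
      rw [dw, mul_one] at a1 a2
      rw [a1, a2, h2, h4]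
    have e3 : z.2.1 = z'.2.1 := by
      have a1 : z.2.1 * (w.1.1 * w.2.2 - w.1.2 * w.2.1) = w.2.2 * (w.1.1 * z.2.1 - w.2.1 * z.1.1) - w.2.1 * (w.1.2 * z.2.1 - w.2.2 * z.1.1) := by ring
      have a2 : z'.2.1 * (w.1.1 * w.2.2 - w.1.2 * w.2.1) = w.2.2 * (w.1.1 * z'.2.1 - w.2.1 * z'.1.1) - w.2.1 * (w.1.2 * z'.2.1 - w.2.2 * z'.1.1) := by ring
      rw [dw, mul_one] at a1 a2
      rw [a1, a2, h1, h3]
    have e4 : z.2.2 = z'.2.2 := by
      have a1 : z.2.2 * (w.1.1 * w.2.2 - w.1.2 * w.2.1) = w.2.2 * (w.1.1 * z.2.2 - w.2.1 * z.1.2) - w.2.1 * (w.1.2 * z.2.2 - w.2.2 * z.1.2) := by ring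
      have a2 : z'.2.2 * (w.1.1 * w.2.2 - w.1.2 * w.2.1) = w.2.2 * (w.1.1 * z'.2.2 - w.2.1 * z'.1.2) - w.2.1 * (w.1.2 * z'.2.2 - w.2.2 * z'.1.2) := by ring
      rw [dw, mul_one] at a1 a2
      rw [a1, a2, h2, h4]
    exact Prod.ext (Prod.ext e1 e2) (Prod.ext e3 e4)

/-! ### periodization -/

private lemma per93 {F : ℝ → ENNReal} (hF : Measurable F) : ∫⁻ x, F x = ∫⁻ x in Ico (0 : ℝ) 1, ∑' m : ℤ, F (x + m) := by
  have hsw : ∫⁻ x in Ico (0 : ℝ) 1, ∑' m : ℤ, F (x + m) = ∑' m : ℤ, ∫⁻ x in Ico (0 : ℝ) 1, F (x + m) :=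
    lintegral_tsum (fun m => (hF.comp (measurable_id.add_const (m : ℝ))).aemeasurable)
  rw [hsw]
  calc ∫⁻ x, F x = ∫⁻ x in ⋃ m : ℤ, Ico (m : ℝ) (m + 1), F x := by rw [iUnion_Ico_intCast, Measure.restrict_univ]
    _ = ∑' m : ℤ, ∫⁻ x in Ico (m : ℝ) (m + 1), F x := lintegral_iUnion (fun _ => measurableSet_Ico) (pairwise_disjoint_Ico_intCast ℝ) _
    _ = ∑' m : ℤ, ∫⁻ x in Ico (0 : ℝ) 1, F (x + m) := by
        congr 1; ext m
        have h := (measurePreserving_add_right volume (m : ℝ)).setLIntegral_comp_preimage (s := Ico (m : ℝ) (m + 1)) measurableSet_Ico hF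
        rw [← h]
        congr 2
        rw [Set.preimage_add_const_Ico]
        simp

/-! ### the derivative of the shear -/

private lemma inI93 {s₀ l s : ℝ} (h : In s₀ l) (hs : s ∈ Icc (s₀ - l) (s₀ + l)) : s ∈ Icc (-1 : ℝ) 2 := ⟨h.2.1.trans hs.1, hs.2.trans h.2.2⟩

private lemma deriv93 {F : Fam} {B₀ : ℝ} (hF : F.Ok B₀) {n : ℤ × ℤ} (hsp : |sp n| ≤ 3) {s : ℝ} (hs : s ∈ Icc (-1 : ℝ) 2) :
    HasDerivAt (xG F n) (F.J s (sp n) / (n.1 : ℝ) ^ 2) s :=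
  ((hF.hx s hs (sp n) (by linarith)).div_const _).const_add _

private lemma inj93 {F : Fam} {B₀ σ s₀ l : ℝ} (hF : F.Ok B₀) {n : ℤ × ℤ} (hn : 0 < n.1) (hsp : |sp n| ≤ 3) (hσ : 0 < σ) (hI : In s₀ l)
    (hJ : ∀ s ∈ Icc (s₀ - l) (s₀ + l), σ ≤ |F.J s (sp n)|) : InjOn (xG F n) (Icc (s₀ - l) (s₀ + l)) := by
  have hnR : (0 : ℝ) < n.1 := by exact_mod_cast hn
  have key : ∀ s ∈ Icc (s₀ - l) (s₀ + l), ∀ s' ∈ Icc (s₀ - l) (s₀ + l), s < s' → xG F n s ≠ xG F n s' := by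
    intro s hs s' hs' hss h
    have hsub : ∀ v ∈ Icc s s', v ∈ Icc (s₀ - l) (s₀ + l) := fun v hv => ⟨hs.1.trans hv.1, hv.2.trans hs'.2⟩
    obtain ⟨c, hc, hc0⟩ := exists_hasDerivAt_eq_zero (f := xG F n) (f' := fun v => F.J v (sp n) / (n.1 : ℝ) ^ 2) hss
      (fun v hv => (deriv93 hF hsp (inI93 hI (hsub v hv))).continuousAt.continuousWithinAt) h
      (fun v hv => deriv93 hF hsp (inI93 hI (hsub v (Ioo_subset_Icc_self hv))))
    have h1 := hJ c (hsub c (Ioo_subset_Icc_self hc))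
    have h2 : F.J c (sp n) = 0 := by
      rcases div_eq_zero_iff.1 hc0 with h | h
      · exact h
      · exact absurd h (by positivity)
    rw [h2, abs_zero] at h1
    linarith
  intro s hs s' hs' h
  rcases lt_trichotomy s s' with h1 | h1 | h1
  · exact absurd h (key s hs s' hs' h1)
  · exact h1
  · exact absurd h.symm (key s' hs' s hs h1)

/-- bounds for `T y²` and for the derivative of the shear -/
private lemma bds93 {F : Fam} {B₀ β : ℝ} (hF : F.Ok B₀) (hβ : 1 ≤ β) {U σ s : ℝ} {n : ℤ × ℤ} (hU : 1 ≤ U) (hσ : 0 < σ) (hn : 0 < n.1) (hn1 : U ≤ β * n.1) (hn2 : (n.1 : ℝ) ≤ β * U)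
    (hsp : |sp n| ≤ 3) (hs : s ∈ Icc (-1 : ℝ) 2) (hJ : σ ≤ |F.J s (sp n)|) :
    1 / (B₀ * β ^ 3) / U ^ 3 ≤ yG F n s ∧ yG F n s ≤ B₀ * β ^ 3 / U ^ 3 ∧ 1 / β ^ 2 * σ / U ^ 2 ≤ |F.J s (sp n) / (n.1 : ℝ) ^ 2| := by
  have hB0 : (0 : ℝ) < B₀ := by linarith [hF.B1]
  have hβ0 : (0 : ℝ) < β := by linarith
  have hU0 : 0 < U := by linarith
  have hnR : (0 : ℝ) < n.1 := by exact_mod_cast hn
  have ht : |sp n| ≤ 12 := by linarith
  have hn1' : U / β ≤ n.1 := by rw [div_le_iff₀ hβ0]; linarith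
  have hp1 : 1 / B₀ ≤ F.p s (sp n) := by
    rw [div_le_iff₀ hB0]; have := hF.p_lo s hs _ ht; linarith
  have hp2 : F.p s (sp n) ≤ B₀ := (le_abs_self _).trans (hF.bd s hs _ ht).2.2.1
  refine ⟨?_, ?_, ?_⟩
  · unfold yG
    have hp0 : 0 ≤ F.p s (sp n) := le_trans (by positivity) hp1
    calc 1 / (B₀ * β ^ 3) / U ^ 3 = 1 / B₀ / (β * U) ^ 3 := by field_simp
      _ ≤ F.p s (sp n) / (n.1 : ℝ) ^ 3 := by gcongr
  · unfold yG
    have hp0 : 0 ≤ F.p s (sp n) := le_trans (by positivity) hp1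
    calc F.p s (sp n) / (n.1 : ℝ) ^ 3 ≤ B₀ / (U / β) ^ 3 := by gcongr
      _ = _ := by field_simp
  · rw [abs_div, abs_of_pos (by positivity : 0 < (n.1 : ℝ) ^ 2)]
    calc 1 / β ^ 2 * σ / U ^ 2 = σ / (β * U) ^ 2 := by field_simp
      _ ≤ |F.J s (sp n)| / (n.1 : ℝ) ^ 2 := by gcongr

/-- C2: push forward to the shears and the values of `T y²`, all `n` of height about `U` together -/
theorem push_sumG {B₀ B β : ℝ} (hB₀ : 1 ≤ B₀) (hB : 1 ≤ B) (hβ : 1 ≤ β) : ∃ C : ℝ, 1 ≤ C ∧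
    ∀ (F : Fam), F.Ok B₀ → ∀ (U σ X s₀ l : ℝ) (ns : Finset (ℤ × ℤ)) (G : ℝ → ℝ → ENNReal), 1 ≤ U → 0 < σ → 0 < X → In s₀ l →
      (∀ n ∈ ns, Pr n ∧ U ≤ β * n.1 ∧ (n.1 : ℝ) ≤ β * U ∧ |sp n| ≤ 3 ∧ ∀ s ∈ Icc (s₀ - l) (s₀ + l), σ ≤ |F.J s (sp n)|) →
      Measurable (fun q : ℝ × ℝ => G q.1 q.2) → (∀ Y x, G Y (x + 1) = G Y x) →
        ∑ n ∈ ns, ∫⁻ s in Icc (s₀ - l) (s₀ + l), ∫⁻ r in Icc (X / B) (B * X), G (r * yG F n s) (xG F n s) ≤
          ENNReal.ofReal (C * U ^ 5 / σ) * ∫⁻ x in Ico (0 : ℝ) 1, ∫⁻ Y in Icc (X / (C * U ^ 3)) (C * X / U ^ 3), G Y x := by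
  classical
  have hB0 : (0 : ℝ) < B := by linarith
  have hB00 : (0 : ℝ) < B₀ := by linarith
  have hβ0 : (0 : ℝ) < β := by linarith
  set C₁ : ℝ := 4 * B₀ ^ 2 * β with hC₁d
  have hC₁ : 1 ≤ C₁ := by
    have h1 : 1 ≤ B₀ ^ 2 := by nlinarith
    rw [hC₁d]
    nlinarith
  set c₀ : ℝ := 1 / (B₀ * β ^ 3) with hc₀d
  set C₀ : ℝ := B₀ * β ^ 3 with hC₀d
  set c₁ : ℝ := 1 / β ^ 2 with hc₁d
  have hc₀ : 0 < c₀ := by positivity
  have hC₀ : 0 < C₀ := by positivity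
  have hc₁ : 0 < c₁ := by positivity
  set Q : ℕ := (bx93 ⌊2 * C₁ ^ 2⌋).card with hQ
  set C : ℝ := 1 + B * C₀ + B / c₀ + Q / (c₀ * c₁) with hC
  have hQ0 : (0 : ℝ) ≤ Q := Nat.cast_nonneg _
  have hCa : B * C₀ ≤ C := by
    have h1 : 0 ≤ B / c₀ := by positivity
    have h2 : 0 ≤ Q / (c₀ * c₁) := by positivity
    linarith
  have hCb : B / c₀ ≤ C := by
    have h1 : 0 ≤ B * C₀ := by positivity
    have h2 : 0 ≤ Q / (c₀ * c₁) := by positivity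
    linarith
  have hCc : Q / (c₀ * c₁) ≤ C := by
    have h1 : 0 ≤ B * C₀ := by positivity
    have h2 : 0 ≤ B / c₀ := by positivity
    linarith
  have hC1 : 1 ≤ C := by
    have h1 : 0 ≤ B * C₀ := by positivity
    have h2 : 0 ≤ B / c₀ := by positivity
    have h3 : 0 ≤ Q / (c₀ * c₁) := by positivity
    linarith
  have hCpos : 0 < C := by linarith
  refine ⟨C, hC1, ?_⟩
  intro F hF U σ X s₀ l ns G hU hσ hX hIn hns hG hper
  have hU0 : 0 < U := by linarith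
  set J : Set ℝ := Icc (X / (C * U ^ 3)) (C * X / U ^ 3) with hJ
  set Φ : ℝ → ENNReal := fun x => ∫⁻ Y in J, G Y x with hΦ
  have hΦm : Measurable Φ := by
    have h1 : Measurable (fun q : ℝ × ℝ => G q.2 q.1) := hG.comp measurable_swap
    exact h1.lintegral_prod_right'
  have hΦp : Function.Periodic Φ 1 := fun x => by simp only [hΦ, hper]
  have hΦz : ∀ (m : ℤ) (x : ℝ), Φ (x + m) = Φ x := fun m x => by
    have := hΦp.int_mul m x
    rwa [mul_one] at this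
  set I : Set ℝ := Icc (s₀ - l) (s₀ + l) with hI
  have hIm : MeasurableSet I := measurableSet_Icc
  have hII : ∀ s ∈ I, s ∈ Icc (-1 : ℝ) 2 := fun s hs => inI93 hIn hs
  -- one `n`
  have hcont : ∀ n ∈ ns, IsCompact (xG F n '' I) := by
    intro n hn
    refine isCompact_Icc.image_of_continuousOn fun s hs => ?_
    exact (deriv93 hF (hns n hn).2.2.2.1 (hII s hs)).continuousAt.continuousWithinAt
  have hinner : ∀ n ∈ ns, ∀ s ∈ I, ∀ x : ℝ, ∫⁻ r in Icc (X / B) (B * X), G (r * yG F n s) x ≤ ENNReal.ofReal (U ^ 3 / c₀) * Φ x := by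
    intro n hn s hs x
    obtain ⟨hPr, hn1, hn2, hsp, hσl⟩ := hns n hn
    obtain ⟨hy1, hy2, -⟩ := bds93 hF hβ hU hσ hPr.2 hn1 hn2 hsp (hII s hs) (hσl s hs)
    have hy0 : 0 < yG F n s := lt_of_lt_of_le (by positivity) hy1
    set y := yG F n s with hy
    have himg := lintegral_image_eq_lintegral_abs_deriv_mul (s := Icc (X / B) (B * X)) (f := fun r : ℝ => r * y) (f' := fun _ => y) measurableSet_Icc
      (fun r _ => (by simpa using (hasDerivAt_id r).mul_const y : HasDerivAt (fun r : ℝ => r * y) y r).hasDerivWithinAt)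
      (fun r _ r' _ h => mul_right_cancel₀ hy0.ne' h) (fun Y => G Y x)
    rw [abs_of_pos hy0, lintegral_const_mul' _ _ ENNReal.ofReal_ne_top] at himg
    have hsub : (fun r : ℝ => r * y) '' Icc (X / B) (B * X) ⊆ J := by
      rintro _ ⟨r, hr, rfl⟩
      rw [hJ]
      have hr0 : 0 < r := lt_of_lt_of_le (by positivity) hr.1
      constructor
      · calc X / (C * U ^ 3) ≤ X / (B / c₀ * U ^ 3) := by gcongr
          _ = X / B * (c₀ / U ^ 3) := by field_simp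
          _ ≤ r * y := by have := hr.1; gcongr
      · calc r * y ≤ B * X * (C₀ / U ^ 3) := by have := hr.2; gcongr
          _ = B * C₀ * X / U ^ 3 := by ring
          _ ≤ C * X / U ^ 3 := by gcongr
    have h1 : ENNReal.ofReal y * ∫⁻ r in Icc (X / B) (B * X), G (r * y) x ≤ Φ x := by
      rw [← himg]
      exact lintegral_mono_set hsub
    calc ∫⁻ r in Icc (X / B) (B * X), G (r * y) x = ENNReal.ofReal y⁻¹ * (ENNReal.ofReal y * ∫⁻ r in Icc (X / B) (B * X), G (r * y) x) := by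
          rw [← mul_assoc, ← ENNReal.ofReal_mul (by positivity), inv_mul_cancel₀ hy0.ne', ENNReal.ofReal_one, one_mul]
      _ ≤ ENNReal.ofReal (U ^ 3 / c₀) * Φ x := by
          gcongr
          calc y⁻¹ ≤ (c₀ / U ^ 3)⁻¹ := by gcongr
            _ = U ^ 3 / c₀ := by rw [inv_div]
  have houter : ∀ n ∈ ns, ∫⁻ s in I, Φ (xG F n s) ≤ ENNReal.ofReal (U ^ 2 / (c₁ * σ)) * ∫⁻ x in xG F n '' I, Φ x := by
    intro n hn
    obtain ⟨hPr, hn1, hn2, hsp, hσl⟩ := hns n hn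
    have himg := lintegral_image_eq_lintegral_abs_deriv_mul (s := I) (f := xG F n)
      (f' := fun s => F.J s (sp n) / (n.1 : ℝ) ^ 2) hIm
      (fun s hs => (deriv93 hF hsp (hII s hs)).hasDerivWithinAt)
      (inj93 hF hPr.2 hsp hσ hIn hσl) Φ
    have h1 : ENNReal.ofReal (c₁ * σ / U ^ 2) * ∫⁻ s in I, Φ (xG F n s) ≤ ∫⁻ x in xG F n '' I, Φ x := by
      rw [himg, ← lintegral_const_mul' _ _ ENNReal.ofReal_ne_top]
      refine setLIntegral_mono' hIm fun s hs => ?_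
      obtain ⟨-, -, hx'⟩ := bds93 hF hβ hU hσ hPr.2 hn1 hn2 hsp (hII s hs) (hσl s hs)
      gcongr
    calc ∫⁻ s in I, Φ (xG F n s) = ENNReal.ofReal (U ^ 2 / (c₁ * σ)) * (ENNReal.ofReal (c₁ * σ / U ^ 2) * ∫⁻ s in I, Φ (xG F n s)) := by
          rw [← mul_assoc, ← ENNReal.ofReal_mul (by positivity)]
          have : U ^ 2 / (c₁ * σ) * (c₁ * σ / U ^ 2) = 1 := by field_simp
          rw [this, ENNReal.ofReal_one, one_mul]
      _ ≤ _ := by gcongr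
  -- all `n`
  have hpt : ∀ x : ℝ, ∑ n ∈ ns, ∑' m : ℤ, (xG F n '' I).indicator Φ (x + m) ≤ Q * Φ x := by
    intro x
    rw [← Summable.tsum_finsetSum (fun _ _ => ENNReal.summable), ENNReal.tsum_eq_iSup_sum]
    refine iSup_le fun T => ?_
    have h1 : ∀ (m : ℤ) (n : ℤ × ℤ), (xG F n '' I).indicator Φ (x + m) = if x + m ∈ xG F n '' I then Φ x else 0 := by
      intro m n
      rw [Set.indicator_apply, hΦz]
    simp only [h1]
    rw [Finset.sum_comm, ← Finset.sum_product' (f := fun (n : ℤ × ℤ) (m : ℤ) => if x + m ∈ xG F n '' I then Φ x else 0), ← Finset.sum_filter,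
      Finset.sum_const, nsmul_eq_mul]
    gcongr
    set E := (ns ×ˢ T).filter (fun q : (ℤ × ℤ) × ℤ => x + (q.2 : ℝ) ∈ xG F q.1 '' I) with hE
    set g : (ℤ × ℤ) × ℤ → (ℤ × ℤ) × (ℤ × ℤ) := fun q => (q.1, ((co q.1).1 - q.2 * q.1.1, (co q.1).2 - q.2 * q.1.2)) with hg
    have hinj : Set.InjOn g E := by
      intro q hq q' hq' h
      rw [hg] at h
      simp only [Prod.mk.injEq] at h
      obtain ⟨h1, h2, -⟩ := h
      rw [h1] at h2
      have hmem : q'.1 ∈ ns := by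
        have := (Finset.mem_filter.1 (Finset.mem_coe.1 hq')).1
        exact (Finset.mem_product.1 this).1
      have hpos : 0 < q'.1.1 := (hns _ hmem).1.2
      have h3 : q.2 * q'.1.1 = q'.2 * q'.1.1 := by linarith
      exact Prod.ext h1 (mul_right_cancel₀ hpos.ne' h3)
    rw [← Finset.card_image_of_injOn hinj]
    refine card93 (x := x) hC₁ hU (E.image g) ?_
    intro z hz
    obtain ⟨q, hq, rfl⟩ := Finset.mem_image.1 hz
    obtain ⟨hq1, s, hs, hsx⟩ := Finset.mem_filter.1 hq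
    obtain ⟨hPr, hn1, hn2, hsp, hσl⟩ := hns q.1 (Finset.mem_product.1 hq1).1
    have hdet := Pool.Agent.Helper60.LT.co_spec hPr.1
    have hd2 : q.1.1 * ((co q.1).2 - q.2 * q.1.2) - q.1.2 * ((co q.1).1 - q.2 * q.1.1) = 1 := by rw [← hdet]; ring
    have hnR : (0 : ℝ) < q.1.1 := by exact_mod_cast hPr.2
    have hx2 : (((co q.1).1 - q.2 * q.1.1 : ℤ) : ℝ) / q.1.1 + F.x s (sp q.1) / (q.1.1 : ℝ) ^ 2 = x := by
      have : x = xG F q.1 s - q.2 := by rw [hsx]; ring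
      rw [this]
      unfold xG
      push_cast
      field_simp
      ring
    obtain ⟨a1, a2, a3, a4⟩ := near93 (p := ((co q.1).1 - q.2 * q.1.1, (co q.1).2 - q.2 * q.1.2)) hF hβ hU hPr.2 hn1 hn2 hsp hd2 (hII s hs) hx2
    exact ⟨hd2, a1, a2, a3, a4⟩
  have hsum : ∑ n ∈ ns, ∫⁻ x in xG F n '' I, Φ x ≤ Q * ∫⁻ x in Ico (0 : ℝ) 1, Φ x := by
    have hmI : ∀ n ∈ ns, Measurable ((xG F n '' I).indicator Φ) := fun n hn => hΦm.indicator (hcont n hn).measurableSet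
    calc ∑ n ∈ ns, ∫⁻ x in xG F n '' I, Φ x = ∑ n ∈ ns, ∫⁻ x in Ico (0 : ℝ) 1, ∑' m : ℤ, (xG F n '' I).indicator Φ (x + m) := by
          refine Finset.sum_congr rfl fun n hn => ?_
          rw [← lintegral_indicator (hcont n hn).measurableSet, per93 (hmI n hn)]
      _ = ∫⁻ x in Ico (0 : ℝ) 1, ∑ n ∈ ns, ∑' m : ℤ, (xG F n '' I).indicator Φ (x + m) := by
          rw [lintegral_finsetSum' _ (fun n hn => ?_)]
          exact (Measurable.tsum fun m => (hmI n hn).comp (measurable_id.add_const _)).aemeasurable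
      _ ≤ ∫⁻ x in Ico (0 : ℝ) 1, Q * Φ x := lintegral_mono fun x => hpt x
      _ = Q * ∫⁻ x in Ico (0 : ℝ) 1, Φ x := lintegral_const_mul' _ _ (ENNReal.natCast_ne_top _)
  calc ∑ n ∈ ns, ∫⁻ s in I, ∫⁻ r in Icc (X / B) (B * X), G (r * yG F n s) (xG F n s)
      ≤ ∑ n ∈ ns, ENNReal.ofReal (U ^ 3 / c₀) * (ENNReal.ofReal (U ^ 2 / (c₁ * σ)) * ∫⁻ x in xG F n '' I, Φ x) := by
        refine Finset.sum_le_sum fun n hn => ?_
        calc ∫⁻ s in I, ∫⁻ r in Icc (X / B) (B * X), G (r * yG F n s) (xG F n s) ≤ ∫⁻ s in I, ENNReal.ofReal (U ^ 3 / c₀) * Φ (xG F n s) :=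
              setLIntegral_mono' hIm fun s hs => hinner n hn s hs _
          _ = ENNReal.ofReal (U ^ 3 / c₀) * ∫⁻ s in I, Φ (xG F n s) := lintegral_const_mul' _ _ ENNReal.ofReal_ne_top
          _ ≤ _ := by gcongr; exact houter n hn
    _ = ENNReal.ofReal (U ^ 3 / c₀) * (ENNReal.ofReal (U ^ 2 / (c₁ * σ)) * ∑ n ∈ ns, ∫⁻ x in xG F n '' I, Φ x) := by
        rw [← Finset.mul_sum, ← Finset.mul_sum]
    _ ≤ ENNReal.ofReal (U ^ 3 / c₀) * (ENNReal.ofReal (U ^ 2 / (c₁ * σ)) * (Q * ∫⁻ x in Ico (0 : ℝ) 1, Φ x)) := by gcongr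
    _ = ENNReal.ofReal (U ^ 3 / c₀ * (U ^ 2 / (c₁ * σ)) * Q) * ∫⁻ x in Ico (0 : ℝ) 1, Φ x := by
        rw [ENNReal.ofReal_mul (by positivity), ENNReal.ofReal_mul (by positivity), ENNReal.ofReal_natCast]
        ring
    _ ≤ ENNReal.ofReal (C * U ^ 5 / σ) * ∫⁻ x in Ico (0 : ℝ) 1, Φ x := by
        gcongr
        calc U ^ 3 / c₀ * (U ^ 2 / (c₁ * σ)) * Q = Q / (c₀ * c₁) * U ^ 5 / σ := by field_simp
          _ ≤ C * U ^ 5 / σ := by gcongr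

end Pool.Agent.Helper60.GM
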